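import Pool.Agent.R904.SDLag

/-!
# Self-dual Chow-Kunneth decompositions from Lagrangian systems

`𝒱` is a class of smooth projective geometrically irreducible varieties over the field `k` closed
under products (for example all of them), `C` the Chow groups with rational coefficients (in the
form of their formal properties, `IsChowProj`) and `H` a Weil cohomology theory (`IsWeilProj`).

Let `X` be a variety of dimension `d` and `S_1, ..., S_N` varieties with Chow-Kunneth decompositions,
not necessarily self-dual, and let `E_s : h(S_s)(-r_s) → h(X)` and `G_s : h(X) → h(S_s)(-r_s)` be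
correspondences with `G_s ∘ E_t = δ_{st}` and `E_s^t ∘ E_t = 0` (the sum of the `h(S_s)(-r_s)` is an
isotropic direct summand of `h(X)`). If every class of degree `m ≠ d` in `H^*(X)` is a sum of classes
`E_s y` and `G_s^t z`, then `X` has a self-dual Chow-Kunneth decomposition. No hypothesis of
nilpotence or finite dimensionality is made.

An example is a morphism `f : X → S` of relative dimension one with `f_* h = N [S]`, `N ≠ 0`, for a
divisor class `h` (`E = f^*`, `G = N^(-1) f_*(h ·)`) such that `H^m(X) = f^* H^m(S) + h f^* H^(m-2)(S)`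
for `m ≠ d`; similarly for projective bundles of even rank and, more generally, for fibrations of
odd relative dimension with classes `a_s`, `b_s` on `X` with `f_*(a_s b_t) = δ_{st}` which generate
the cohomology of `X` outside of the middle degree over that of `S` (`E_s = a_s f^*`,
`G_s = f_*(b_s ·)`, with `2 codim(a_s) < dim X - dim S`).
-/

open CategoryTheory AlgebraicGeometry

set_option autoImplicit false

universe u v w

namespace Pool.Agent.Results.MP_8a7054_ag.LagrangianSystem

open Pool.Agent.H914 Pool.Agent.W492.BB Pool.Agent.TH133 Pool.Agent.R904 Pool.Agent.W550.Corr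

/-- A variety with a Lagrangian system of correspondences from varieties with Chow-Kunneth
decompositions has a self-dual Chow-Kunneth decomposition. -/
theorem result {k : Type u} [Field k] {𝒱 : VarClass k} (C : TheoryData.{u, v, 0} 𝒱 ℚ)
    [IsChowProj C] {K : Type w} [Field K] (H : WeilTheoryData.{u, v, w} C K) [IsWeilProj H]
    (X : 𝒱.Obj) (N : ℕ) (S : Fin N → 𝒱.Obj) (r : Fin N → ℤ)
    (E : ∀ s, C.A ((S s).prod X)) (G : ∀ s, C.A (X.prod (S s)))
    (hE : ∀ s, C.Deg (((S s).dim : ℤ) + r s) (E s)) (hG : ∀ s, C.Deg ((X.dim : ℤ) - r s) (G s))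
    (hEG : ∀ s, C.comp (E s) (G s) = dg C (S s)) (hEG' : ∀ s t, s ≠ t → C.comp (E s) (G t) = 0)
    (hiso : ∀ s t, C.comp (E s) (tp C (E t)) = 0) (hS : ∀ s, ∃ p, IsCK H (S s) p)
    (hspan : ∀ (m : ℤ) (x : H.A X), H.Deg m x → m ≠ X.dim → ∃ y z : ∀ s, H.A (S s),
      x = ∑ s, (H.act (H.cl (E s)) (y s) + H.act (H.cl (tp C (G s))) (z s))) :
    ∃ π : ℕ → C.A (X.prod X), IsCK H X π ∧ IsSelfDual C π :=
  selfDual_of_lagrangianSystem S r E G hE hG hEG hEG' hiso hS hspan

end Pool.Agent.Results.MP_8a7054_ag.LagrangianSystem
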