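import Pool.Agent.R904.SDNil

/-!
# Self-dual Chow-Kunneth decompositions from nilpotence below the middle degree

`𝒱` is a class of smooth projective geometrically irreducible varieties over the field `k` closed
under products (for example all of them), `C` the Chow groups with rational coefficients (in the
form of their formal properties, `IsChowProj`) and `H` a Weil cohomology theory (`IsWeilProj`).

Let `X` be a variety of dimension `d`. Suppose that the projectors of `H^*(X)` onto pieces of the
`H^m(X)`, `m < d`, are induced by correspondences `α_1, ..., α_N` each of which factors through some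
Chow motive `(Y_i, q_i)(r_i)` whose homologically trivial endomorphisms are nilpotent, for example
through the motive of a product of curves, of an abelian variety, or through any motive which is
finite-dimensional in the sense of Kimura. Then `X` has a self-dual Chow-Kunneth decomposition.

The `α_i` need not be idempotent, no relation between them as cycles is assumed, the motives may
differ from one `i` to another, and nothing at all is assumed in the middle degree. Some cases:

* the summands `h^m(X)`, `m < d`, exist and their homologically trivial endomorphisms are nilpotent;
* there is a dominant morphism `f : Y → X` from a variety of any dimension for which there are such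
  summands `h^m(Y)`, `m < dim X` (`selfDual_of_dominant`);
* there is a morphism `f : X → Y` with such summands for which `f^*` is surjective on `H^m`, `m < d`,
  and `f_* f^*` has an algebraic left inverse on `H^m(Y)` (`selfDual_of_lefschetz`): for example a
  complete intersection of ample divisors in an abelian variety.

For the proof, spectral idempotents of the `α_i`, compressed successively to the orthogonal
complement of the pieces already constructed, are moved to isotropic ones by a square root.
-/

open CategoryTheory AlgebraicGeometry

set_option autoImplicit false

universe u v w

namespace Pool.Agent.Results.MP_8a7054_ag.NilpotentBelowMiddle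

open Pool.Agent.H914 Pool.Agent.W492.BB Pool.Agent.TH133 Pool.Agent.R904

/-- If the projectors of the cohomology below the middle degree are induced by correspondences
factoring through motives with nilpotent homologically trivial endomorphisms, then `X` has a
self-dual Chow-Kunneth decomposition. -/
theorem result {k : Type u} [Field k] {𝒱 : VarClass k} (C : TheoryData.{u, v, 0} 𝒱 ℚ)
    [IsChowProj C] {K : Type w} [Field K] (H : WeilTheoryData.{u, v, w} C K) [IsWeilProj H]
    (X : 𝒱.Obj) (N : ℕ) (α : Fin N → C.A (X.prod X)) (δ : Fin N → ℕ) (hδ : ∀ i, δ i < X.dim)
    (hα : ∀ i, FactorsNil H (α i))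
    (horth : ∀ i j (x : H.A X), H.act (H.cl (α i)) (H.act (H.cl (α j)) x) =
      if i = j then H.act (H.cl (α i)) x else 0)
    (hdeg : ∀ i (m : ℤ) (x : H.A X), H.Deg m x → m ≠ δ i → H.act (H.cl (α i)) x = 0)
    (hsum : ∀ (m : ℤ) (x : H.A X), H.Deg m x → m < X.dim → H.act (H.cl (∑ i, α i)) x = x) :
    ∃ π : ℕ → C.A (X.prod X), IsCK H X π ∧ IsSelfDual C π := by
  refine selfDual_of_nilTransit α δ hδ ?_ ?_ horth hdeg hsum
  · intro i
    obtain ⟨Y, q, r, a, b, hq, ha, hb, h⟩ := hα i
    have h0 : q ∈ C.gr (Y.prod Y) (Y.dim + 0) := by rw [add_zero]; exact hq.1
    have hb' : b ∈ C.gr (Y.prod X) (Y.dim + -r) := by rwa [← sub_eq_add_neg]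
    have h1 := comp_mem C (comp_mem C ha h0) hb'
    rw [h]
    rwa [show (r + 0 + -r) = 0 by ring, add_zero] at h1
  · intro i
    obtain ⟨Y, q, r, a, b, hq, ha, hb, h⟩ := hα i
    rw [h]
    exact nilTransit_of_factor hq ha (by rwa [← sub_eq_add_neg])

end Pool.Agent.Results.MP_8a7054_ag.NilpotentBelowMiddle
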