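import Pool.Agent.R368.Nor.Main

/-!
# Self-dual Chow–Künneth decompositions and normal correspondences

Let `𝒱` be a class of smooth projective varieties over a field `k` which is closed under products,
with Chow groups `C` (rational coefficients) and a Weil cohomology theory `W`, and `n = dim X`. A
correspondence `g` in `CH^n(X × X)` *separates the degrees* if there are pairwise coprime polynomials
`χ_0, …, χ_(2n)` with rational coefficients such that `χ_j(g)` acts as zero on `H^j(X)`. It is
*normal* if it commutes with its transpose, and *algebraic* if `Q(g) = 0` for some nonzero polynomial
`Q`.

1. `X` has a self-dual Chow–Künneth decomposition if and only if some algebraic and normal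
   correspondence separates the degrees.
2. `X` has a self-dual Chow–Künneth decomposition if and only if it has a Chow–Künneth decomposition
   whose members commute with their transposes.
3. If `g` is normal and separates the degrees, and if each homologically trivial correspondence in
   `CH^n(X × X)` which commutes with `g` is nilpotent, then exactly one Chow–Künneth decomposition of
   `X` commutes with `g`; it is self-dual and consists of polynomials in `g`.
4. Let `f : X ⟶ X` be a morphism of degree `m ≠ 0` whose graph separates the degrees. If the graph is
   algebraic then `X` has a self-dual Chow–Künneth decomposition. If all homologically trivial `γ` in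
   `CH^n(X × X)` with `(f × f)_* γ = m γ` are nilpotent then the conclusion of 3 holds for the graph of
   `f`.
5. If the standard conjecture of Künneth type holds for `X` and each homologically trivial
   correspondence in `CH^n(X × X)` is algebraic (for example if `CH^n(X × X)` has finite dimension, as
   is expected over number fields and finite fields) then `X` has a self-dual Chow–Künneth
   decomposition.
-/

open Pool.Agent.H914 Pool.Agent.R903 Pool.Agent.R368

universe u v w

namespace Pool.Agent.Results.MP_8a7054_ag.NormalCorrespondences

theorem result {k : Type u} [Field k] {𝒱 : VarClass k} {C : ChowTheory.{u, v} 𝒱}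
    (W : WeilTheory.{u, v, w} C) (hP : C.Polarized) (X : 𝒱.Obj) :
    (HasSelfDualCK W X ↔ ∃ g, Separates W X g ∧ Algebraic C g ∧ Normal C g) ∧
    (HasSelfDualCK W X ↔ HasCommutingCK W X) ∧
    (∀ g, Separates W X g → CommutantNil W X g → Normal C g → UniqueSelfDualCK W X g) ∧
    (∀ (f : X ⟶ X) (m : ℚ), m ≠ 0 → HasDegree (C.push f) m → Separates W X (graphOf C f) →
      (Algebraic C (graphOf C f) → HasSelfDualCK W X) ∧
      (EigenNil W X f m → UniqueSelfDualCK W X (graphOf C f))) ∧
    (KunnethFor W X → HomTrivAlgebraic W X → HasSelfDualCK W X) :=
  ⟨selfDual_iff_normal, selfDual_iff_commuting, fun _ => uniqueSelfDual_of_normal,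
    fun f _ hm0 hm h => ⟨hasSelfDualCK_of_endomorphism f hm0 hm h,
      uniqueSelfDual_of_endomorphism hP f hm0 hm h⟩, hasSelfDualCK_of_algebraic⟩

end Pool.Agent.Results.MP_8a7054_ag.NormalCorrespondences
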