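import Pool.Agent.R904.SDWitt

/-!
# Witt cancellation for self-dual Chow-Kunneth decompositions

`𝒱` is a class of smooth projective geometrically irreducible varieties over the field `k` closed
under products (for example all of them), `C` the Chow groups with rational coefficients (in the
form of their formal properties, `IsChowProj`) and `H` a Weil cohomology theory (`IsWeilProj`).

Let `h(X)(-e)` be an orthogonal direct summand of `h(Y)`, `dim Y = dim X + 2 e`: there is a
correspondence `E : h(X)(-e) → h(Y)` with `E^t ∘ E = c Δ_X`, `c ≠ 0`. For example, `E = f^*` for a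
generically finite morphism `f : Y → X` of degree `c`. Let `M = (Y, Δ_Y - c^(-1) E ∘ E^t)` be the
complement, and suppose that the homologically trivial endomorphisms of `M` are nilpotent, for
example that `M` is finite-dimensional. Then `Y` has a self-dual Chow-Kunneth decomposition if and
only if `X` has one and the Kunneth projectors of `M` are algebraic.

For the blow-up `Y` of `X` along a smooth centre `Z` the complement is a sum of Tate twists of
`h(Z)`. So the existence of a self-dual Chow-Kunneth decomposition is invariant under blow-ups with
centres whose motive is finite-dimensional and has algebraic Kunneth projectors, for example points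
and curves. The difficulty is the implication from `Y` to `X`: a Chow-Kunneth decomposition of `Y`
need not be compatible with `E`, and it has to be moved by an isometry of `h(Y)` (a reflection, after
a polar decomposition) which maps the complement to a sum of pieces of the decomposition of `Y`.
-/

open CategoryTheory AlgebraicGeometry

set_option autoImplicit false

universe u v w

namespace Pool.Agent.Results.MP_8a7054_ag.WittCancellation

open Pool.Agent.H914 Pool.Agent.W492.BB Pool.Agent.TH133 Pool.Agent.R904 Pool.Agent.W550.Corr

/-- Witt cancellation for self-dual Chow-Kunneth decompositions. -/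
theorem result {k : Type u} [Field k] {𝒱 : VarClass k} (C : TheoryData.{u, v, 0} 𝒱 ℚ)
    [IsChowProj C] {K : Type w} [Field K] (H : WeilTheoryData.{u, v, w} C K) [IsWeilProj H]
    (X Y : 𝒱.Obj) (e : ℕ) (hd : Y.dim = X.dim + 2 * e) (c : ℚ) (hc : c ≠ 0)
    (E : C.A (X.prod Y)) (hE : C.Deg ((X.dim : ℤ) + e) E)
    (hEE : C.comp E (tp C E) = c • dg C X)
    (hnil : NilMotive H (dg C Y - c⁻¹ • C.comp (tp C E) E)) :
    (∃ π, IsCK H Y π ∧ IsSelfDual C π) ↔ (∃ π, IsCK H X π ∧ IsSelfDual C π) ∧
      ∀ m : ℕ, ∃ κ : C.A (Y.prod Y), C.Deg Y.dim κ ∧ ∀ (l : ℤ) (y : H.A Y), H.Deg l y →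
        H.act (H.cl κ) y =
          if l = m then H.act (H.cl (dg C Y - c⁻¹ • C.comp (tp C E) E)) y else 0 :=
  selfDual_iff_of_orthogonal hd hc hE hEE hnil

end Pool.Agent.Results.MP_8a7054_ag.WittCancellation
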